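import Mathlib

/-!
# Long/short edge realizability on complete bipartite graphs
-/

set_option autoImplicit false

namespace Pool.Agent.Q230.LS

/-- A non-degenerate straight-line drawing of a graph in the plane: distinct vertices are placed at
distinct points and no vertex lies in the relative interior of a segment representing an edge. -/
def IsDrawing {V : Type} (G : SimpleGraph V) (p : V → EuclideanSpace ℝ (Fin 2)) : Prop :=
  Function.Injective p ∧ ∀ u v w, G.Adj u v → p w ∉ openSegment ℝ (p u) (p v)

/-- `G` has a drawing in which exactly the edges in `short` have length at most `1`. -/
def Realizable {V : Type} (G : SimpleGraph V) (short : Set (Sym2 V)) : Prop :=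
  ∃ p : V → EuclideanSpace ℝ (Fin 2), IsDrawing G p ∧
    ∀ u v, G.Adj u v → (dist (p u) (p v) ≤ 1 ↔ s(u, v) ∈ short)

/-- The number of columns of a matrix given by its rows. -/
def wid (M : List (List Bool)) : ℕ := (M.headD []).length

/-- The entry of a matrix. -/
def ent (M : List (List Bool)) (i j : ℕ) : Bool := (M.getD i []).getD j false

/-- The short edges of the complete bipartite graph on the rows and the columns of a matrix: row `i`
and column `j` are joined by a short edge if the entry `(i, j)` is `true`. -/
def shortSet (M : List (List Bool)) : Set (Sym2 (Fin M.length ⊕ Fin (wid M))) :=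
  {e | ∃ i j, e = s(Sum.inl i, Sum.inr j) ∧ ent M i.1 j.1 = true}

/-- Long/short edge realizability restricted to complete bipartite graphs `K_{m,n}`: the input is an
`m × n` matrix of truth values, given by its rows, which says which of the `m n` edges are short. -/
def LongShortBipartite (M : List (List Bool)) : Prop :=
  (∀ row ∈ M, row.length = wid M) ∧
    Realizable (completeBipartiteGraph (Fin M.length) (Fin (wid M))) (shortSet M)

end Pool.Agent.Q230.LS
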