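import Pool.Agent.Q230.LS.Plane
import Pool.Agent.H625R2.UnitN
import Pool.Agent.H625R2.BallFin
import Pool.Agent.H612.PatOf

/-!
# Long/short edge realizability: the reduction from strict sign matrices
-/

set_option autoImplicit false

namespace Pool.Agent.Q230.LS

open Filter Topology Pool.Agent.NPC Pool.Agent.NPC.ER Pool.Agent.NPC.ER.Pat
open scoped RealInnerProductSpace

/-! ### Perturbation -/

theorem finite_quad (α β γ : ℝ) (h : γ ≠ 0) : {t : ℝ | α + β * t + γ * t ^ 2 = 0}.Finite := by
  set p : Polynomial ℝ := Polynomial.C α + Polynomial.C β * Polynomial.X +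
    Polynomial.C γ * Polynomial.X ^ 2 with hp
  have hp0 : p ≠ 0 := by
    intro h0
    have h1 : p.coeff 2 = 0 := by rw [h0]; simp
    rw [hp] at h1
    simp at h1
    exact h h1
  refine (Polynomial.finite_setOfPred_isRoot hp0).subset fun t ht => ?_
  show p.IsRoot t
  rw [Polynomial.IsRoot.def, hp]
  simp only [Polynomial.eval_add, Polynomial.eval_mul, Polynomial.eval_C, Polynomial.eval_X,
    Polynomial.eval_pow]
  exact ht

theorem eventually_not_mem_finite {A : Set ℝ} (hA : A.Finite) : ∀ᶠ t in 𝓝[>] (0 : ℝ), t ∉ A := by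
  have h1 : 𝓝[>] (0 : ℝ) ≤ 𝓝[≠] 0 := nhdsWithin_mono _ fun x (hx : 0 < x) => ne_of_gt hx
  exact (h1.trans (nhdsNE_le_cofinite 0)) hA.compl_mem_cofinite

/-- A placement with the right strict inequalities can be made non-degenerate. -/
theorem perturb {B0 B1 : ℕ → ℝ} {m n : ℕ} {M : List (List Bool)}
    (h : ∀ i < m, ∀ j < n, (ent M i j = true → sd B0 B1 i (m + j) < 1) ∧
      (ent M i j = false → 1 < sd B0 B1 i (m + j))) : RealN m n M := by
  let a : ℝ → ℕ → ℝ := fun t k => B0 k + t * k
  let b : ℝ → ℕ → ℝ := fun t k => B1 k + t * (k : ℝ) ^ 2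
  have e1 : ∀ k l, k ≠ l → ∀ᶠ t in 𝓝[>] (0 : ℝ), a t k ≠ a t l := by
    intro k l hkl
    have hfin : {t : ℝ | a t k = a t l}.Finite := by
      refine (Set.finite_singleton ((B0 l - B0 k) / ((k : ℝ) - l))).subset fun t ht => ?_
      have hne : (k : ℝ) - l ≠ 0 := sub_ne_zero.2 (by exact_mod_cast hkl)
      have ht' : B0 k + t * k = B0 l + t * l := ht
      rw [Set.mem_singleton_iff, eq_div_iff hne]
      linarith
    exact eventually_not_mem_finite hfin
  have e2 : ∀ w u v, w ≠ u → w ≠ v → u ≠ v → ∀ᶠ t in 𝓝[>] (0 : ℝ), cr (a t) (b t) w u v ≠ 0 := by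
    intro w u v h1 h2 h3
    have hne : ((u : ℝ) - w) * (v ^ 2 - w ^ 2) - (u ^ 2 - w ^ 2) * (v - w) ≠ 0 := by
      have : ((u : ℝ) - w) * (v ^ 2 - w ^ 2) - (u ^ 2 - w ^ 2) * (v - w) =
          (u - w) * (v - w) * (v - u) := by ring
      rw [this]
      refine mul_ne_zero (mul_ne_zero (sub_ne_zero.2 ?_) (sub_ne_zero.2 ?_)) (sub_ne_zero.2 ?_)
      · exact_mod_cast h1.symm
      · exact_mod_cast h2.symm
      · exact_mod_cast h3.symm
    have hfin := finite_quad ((B0 u - B0 w) * (B1 v - B1 w) - (B1 u - B1 w) * (B0 v - B0 w))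
      ((B0 u - B0 w) * ((v : ℝ) ^ 2 - w ^ 2) + ((u : ℝ) - w) * (B1 v - B1 w) -
        (B1 u - B1 w) * ((v : ℝ) - w) - ((u : ℝ) ^ 2 - w ^ 2) * (B0 v - B0 w)) _ hne
    refine (eventually_not_mem_finite hfin).mono fun t ht hc => ht ?_
    show _ = (0 : ℝ)
    rw [← hc]
    simp only [cr, a, b]
    ring
  have hcont : ∀ u v, Continuous fun t => sd (a t) (b t) u v := by
    intro u v
    simp only [sd, a, b]
    fun_prop
  have h0 : ∀ u v, sd (a 0) (b 0) u v = sd B0 B1 u v := by
    intro u v
    simp only [sd, a, b, zero_mul, add_zero]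
  have e3 : ∀ i < m, ∀ j < n, ∀ᶠ t in 𝓝[>] (0 : ℝ),
      (ent M i j = true → sd (a t) (b t) i (m + j) < 1) ∧
      (ent M i j = false → 1 < sd (a t) (b t) i (m + j)) := by
    intro i hi j hj
    have hh := h i hi j hj
    have ht : Tendsto (fun t => sd (a t) (b t) i (m + j)) (𝓝[>] (0 : ℝ))
        (𝓝 (sd B0 B1 i (m + j))) := by
      rw [← h0]
      exact ((hcont i (m + j)).tendsto 0).mono_left nhdsWithin_le_nhds
    cases he : ent M i j
    · have := hh.2 he
      refine (ht.eventually (lt_mem_nhds this)).mono fun t ht => ⟨fun h => absurd h (by simp),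
        fun _ => ht⟩
    · have := hh.1 he
      refine (ht.eventually (gt_mem_nhds this)).mono fun t ht => ⟨fun _ => ht,
        fun h => absurd h (by simp)⟩
  have f1 : ∀ᶠ t in 𝓝[>] (0 : ℝ), ∀ k ∈ Finset.range (m + n), ∀ l ∈ Finset.range (m + n), k ≠ l →
      a t k ≠ a t l := by
    rw [Filter.eventually_all_finset]
    intro k _
    rw [Filter.eventually_all_finset]
    intro l _
    by_cases hkl : k = l
    · exact Eventually.of_forall fun t h => absurd hkl h
    · exact (e1 k l hkl).mono fun t ht _ => ht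
  have f2 : ∀ᶠ t in 𝓝[>] (0 : ℝ), ∀ i ∈ Finset.range m, ∀ j ∈ Finset.range n,
      ∀ w ∈ Finset.range (m + n), w ≠ i → w ≠ m + j → cr (a t) (b t) w i (m + j) ≠ 0 := by
    rw [Filter.eventually_all_finset]
    intro i hi
    rw [Filter.eventually_all_finset]
    intro j _
    rw [Filter.eventually_all_finset]
    intro w _
    by_cases h1 : w = i
    · exact Eventually.of_forall fun t h => absurd h1 h
    by_cases h2 : w = m + j
    · exact Eventually.of_forall fun t _ h => absurd h2 h
    · have := Finset.mem_range.1 hi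
      exact (e2 w i (m + j) h1 h2 (by omega)).mono fun t ht _ _ => ht
  have f3 : ∀ᶠ t in 𝓝[>] (0 : ℝ), ∀ i ∈ Finset.range m, ∀ j ∈ Finset.range n,
      (ent M i j = true → sd (a t) (b t) i (m + j) < 1) ∧
      (ent M i j = false → 1 < sd (a t) (b t) i (m + j)) := by
    rw [Filter.eventually_all_finset]
    intro i hi
    rw [Filter.eventually_all_finset]
    intro j hj
    exact e3 i (Finset.mem_range.1 hi) j (Finset.mem_range.1 hj)
  obtain ⟨t, ⟨g1, g2⟩, g3⟩ := ((f1.and f2).and f3).exists
  refine ⟨a t, b t, ?_, ?_, ?_⟩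
  · intro k hk l hl hkl h'
    exact g1 k (Finset.mem_range.2 hk) l (Finset.mem_range.2 hl) hkl h'.1
  · intro i hi j hj w hw h1 h2 h'
    exact g2 i (Finset.mem_range.2 hi) j (Finset.mem_range.2 hj) w (Finset.mem_range.2 hw) h1 h2 h'.1
  · intro i hi j hj
    have := g3 i (Finset.mem_range.2 hi) j (Finset.mem_range.2 hj)
    constructor
    · intro h'
      by_contra hne
      exact absurd (this.2 (by simpa using hne)) (not_lt.2 h')
    · intro h'
      exact (this.1 h').le

/-! ### The reduction -/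

/-- The matrix with two columns for every column. -/
def redL (M : List (List Bool)) : List (List Bool) :=
  M.map fun row => (List.range (2 * row.length)).map fun J =>
    (row.getD (J / 2) false == decide (J % 2 = 0))

theorem length_redL (M : List (List Bool)) : (redL M).length = M.length := by simp [redL]

theorem rect_redL {m : ℕ} {M : List (List Bool)} (hM : Rect m M) : Rect (2 * m) (redL M) := by
  intro row hrow
  unfold redL at hrow
  rw [List.mem_map] at hrow
  obtain ⟨r, hr, rfl⟩ := hrow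
  simp [hM r hr]

theorem wid_of_rect {m : ℕ} {M : List (List Bool)} (hM : Rect m M) (hne : M ≠ []) :
    LS.wid M = m := hM _ (headD_mem hne)

theorem isBip_of_rect {m : ℕ} {M : List (List Bool)} (hM : Rect m M) :
    ∀ row ∈ M, row.length = LS.wid M := by
  intro row hrow
  rw [wid_of_rect hM (List.ne_nil_of_mem hrow)]
  exact hM row hrow

theorem ent_redL {M : List (List Bool)} {i J : ℕ} (hi : i < M.length)
    (hJ : J < 2 * (M[i]).length) :
    LS.ent (redL M) i J = (M[i].getD (J / 2) false == decide (J % 2 = 0)) := by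
  unfold LS.ent redL
  rw [List.getD_eq_getElem (M.map _) [] (by simpa using hi), List.getElem_map,
    List.getD_eq_getElem _ _ (by simpa using hJ), List.getElem_map, List.getElem_range]

theorem SR_of_realN {m : ℕ} {M : List (List Bool)} (hM : Rect m M)
    (h : RealN (redL M).length (LS.wid (redL M)) (redL M)) : SR 3 M := by
  by_cases hne : M = []
  · subst hne
    exact ⟨fun _ => 0, fun _ => 0, fun i hi => absurd hi (by simp)⟩
  have hne' : redL M ≠ [] := by
    intro h0
    apply hne
    have := congrArg List.length h0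
    rw [length_redL] at this
    simpa using this
  rw [length_redL, wid_of_rect (rect_redL hM) hne'] at h
  obtain ⟨a, b, -, -, h3⟩ := h
  refine ⟨fun i => ![1, a i, b i], fun j => ![a (M.length + (2 * j + 1)) ^ 2 +
    b (M.length + (2 * j + 1)) ^ 2 - a (M.length + 2 * j) ^ 2 - b (M.length + 2 * j) ^ 2,
    2 * (a (M.length + 2 * j) - a (M.length + (2 * j + 1))),
    2 * (b (M.length + 2 * j) - b (M.length + (2 * j + 1)))], fun i hi j hj => ?_⟩
  have hjm : j < m := by rwa [hM _ (List.getElem_mem hi)] at hj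
  have k0 := h3 i hi (2 * j) (by omega)
  have k1 := h3 i hi (2 * j + 1) (by omega)
  rw [ent_redL hi (by omega), show 2 * j / 2 = j by omega, List.getD_eq_getElem _ _ hj,
    show decide (2 * j % 2 = 0) = true by simp] at k0
  rw [ent_redL hi (by omega), show (2 * j + 1) / 2 = j by omega, List.getD_eq_getElem _ _ hj,
    show decide ((2 * j + 1) % 2 = 0) = false by simp] at k1
  have e : ![1, a i, b i] ⬝ᵥ ![a (M.length + (2 * j + 1)) ^ 2 +
      b (M.length + (2 * j + 1)) ^ 2 - a (M.length + 2 * j) ^ 2 - b (M.length + 2 * j) ^ 2,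
      2 * (a (M.length + 2 * j) - a (M.length + (2 * j + 1))),
      2 * (b (M.length + 2 * j) - b (M.length + (2 * j + 1)))] =
      sd a b i (M.length + (2 * j + 1)) - sd a b i (M.length + 2 * j) := by
    simp only [dotProduct, Fin.sum_univ_three, Matrix.cons_val_zero, Matrix.cons_val_one,
      Matrix.cons_val_two, Matrix.head_cons, Matrix.tail_cons]
    unfold sd
    ring
  rw [e]
  cases hE : M[i][j]
  · rw [hE] at k0 k1
    have z0 : ¬ sd a b i (M.length + 2 * j) ≤ 1 := fun h => absurd (k0.1 h) (by simp)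
    have z1 : sd a b i (M.length + (2 * j + 1)) ≤ 1 := k1.2 (by simp)
    rw [sgn_false]
    rw [not_le] at z0
    linarith
  · rw [hE] at k0 k1
    have z0 : sd a b i (M.length + 2 * j) ≤ 1 := k0.2 (by simp)
    have z1 : ¬ sd a b i (M.length + (2 * j + 1)) ≤ 1 := fun h => absurd (k1.1 h) (by simp)
    rw [sgn_true, one_mul]
    rw [not_le] at z1
    linarith

/-- Exact formula for the squared distances. -/
theorem dist_formula (y n : EuclideanSpace ℝ (Fin 2)) (hn : ‖n‖ = 1) (c ε σ : ℝ)
    (hσ : σ ^ 2 = 1) :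
    (ε * y 0 - (-(ε * c) + σ) * n 0) ^ 2 + (ε * y 1 - (-(ε * c) + σ) * n 1) ^ 2 =
      1 - 2 * σ * ε * (c + ⟪y, n⟫) + ε ^ 2 * ((y 0 + c * n 0) ^ 2 + (y 1 + c * n 1) ^ 2) := by
  have h1 : n 0 ^ 2 + n 1 ^ 2 = 1 := by
    have := EuclideanSpace.norm_sq_eq n
    rw [hn, Fin.sum_univ_two] at this
    simp only [Real.norm_eq_abs, sq_abs] at this
    linarith
  have h2 : ⟪y, n⟫ = y 0 * n 0 + y 1 * n 1 := by
    rw [PiLp.inner_apply, Fin.sum_univ_two]
    simp [mul_comm]
  rw [h2]
  linear_combination (σ ^ 2 - 2 * ε * c * σ) * h1 + hσ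

theorem realN_of_SRN {m : ℕ} {M : List (List Bool)} (hM : Rect m M) (h : SRN 2 M) :
    RealN (redL M).length (LS.wid (redL M)) (redL M) := by
  by_cases hne : M = []
  · subst hne
    exact ⟨0, 0, fun k hk => absurd hk (by simp [redL, LS.wid]), fun i hi => absurd hi (by simp [redL]),
      fun i hi => absurd hi (by simp [redL])⟩
  have hne' : redL M ≠ [] := by
    intro h0
    apply hne
    have := congrArg List.length h0
    rw [length_redL] at this
    simpa using this
  rw [length_redL, wid_of_rect (rect_redL hM) hne']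
  obtain ⟨y, n, c, hn, hy⟩ := unit_of_SRN (k := 1) h one_pos
  -- the choice of the scale
  obtain ⟨ε, hε0, hε⟩ : ∃ ε : ℝ, 0 < ε ∧ ∀ i ∈ Finset.range M.length, ∀ j ∈ Finset.range m,
      c j + ⟪y i, n j⟫ ≠ 0 →
      ε * ((y i 0 + c j * n j 0) ^ 2 + (y i 1 + c j * n j 1) ^ 2) < 2 * |c j + ⟪y i, n j⟫| := by
    have key : ∀ᶠ ε in 𝓝[>] (0 : ℝ), ∀ i ∈ Finset.range M.length, ∀ j ∈ Finset.range m,
        c j + ⟪y i, n j⟫ ≠ 0 →
        ε * ((y i 0 + c j * n j 0) ^ 2 + (y i 1 + c j * n j 1) ^ 2) < 2 * |c j + ⟪y i, n j⟫| := by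
      rw [Filter.eventually_all_finset]
      intro i _
      rw [Filter.eventually_all_finset]
      intro j _
      by_cases h0 : c j + ⟪y i, n j⟫ = 0
      · exact Eventually.of_forall fun _ h => absurd h0 h
      · have hpos : 0 < 2 * |c j + ⟪y i, n j⟫| := by positivity
        have ht : Tendsto (fun ε : ℝ => ε * ((y i 0 + c j * n j 0) ^ 2 +
            (y i 1 + c j * n j 1) ^ 2)) (𝓝[>] (0 : ℝ)) (𝓝 0) := by
          have hc : Continuous fun ε : ℝ => ε * ((y i 0 + c j * n j 0) ^ 2 +
            (y i 1 + c j * n j 1) ^ 2) := by fun_prop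
          have := (hc.tendsto 0).mono_left (nhdsWithin_le_nhds (s := Set.Ioi (0 : ℝ)))
          simpa using this
        exact (ht.eventually (gt_mem_nhds hpos)).mono fun t ht _ => ht
    obtain ⟨ε, h1, h2⟩ := (key.and self_mem_nhdsWithin).exists
    exact ⟨ε, h2, h1⟩
  let cen : ℕ → Fin 2 → ℝ := fun k r => if k < M.length then ε * y k r else
    (-(ε * c ((k - M.length) / 2)) + (if (k - M.length) % 2 = 0 then 1 else -1)) *
      n ((k - M.length) / 2) r
  apply perturb (B0 := fun k => cen k 0) (B1 := fun k => cen k 1)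
  intro i hi J hJ
  have hiR : i ∈ Finset.range M.length := Finset.mem_range.2 hi
  have hjm : J / 2 < m := by omega
  have hjR : J / 2 ∈ Finset.range m := Finset.mem_range.2 hjm
  have hlen : M[i].length = m := hM _ (List.getElem_mem hi)
  have hpos := hy i hi (J / 2) (by omega)
  have hv0 : c (J / 2) + ⟪y i, n (J / 2)⟫ ≠ 0 := by
    intro h0
    rw [h0, mul_zero] at hpos
    exact lt_irrefl _ hpos
  have hsm := hε i hiR (J / 2) hjR hv0
  rw [ent_redL hi (by omega), List.getD_eq_getElem _ _ (by omega)]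
  have hsd : sd (fun k => cen k 0) (fun k => cen k 1) i (M.length + J) =
      1 - 2 * (if J % 2 = 0 then 1 else -1) * ε * (c (J / 2) + ⟪y i, n (J / 2)⟫) +
        ε ^ 2 * ((y i 0 + c (J / 2) * n (J / 2) 0) ^ 2 + (y i 1 + c (J / 2) * n (J / 2) 1) ^ 2) := by
    have e1 : ∀ r, cen i r = ε * y i r := fun r => by simp only [cen, if_pos hi]
    have e2 : ∀ r, cen (M.length + J) r = (-(ε * c (J / 2)) + (if J % 2 = 0 then 1 else -1)) *
        n (J / 2) r := fun r => by
      simp only [cen]
      rw [if_neg (by omega), show M.length + J - M.length = J by omega]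
    unfold sd
    simp only [e1, e2]
    rw [dist_formula (y i) (n (J / 2)) (hn _).1 (c (J / 2)) ε (if J % 2 = 0 then 1 else -1)
      (by split_ifs <;> norm_num)]
  rw [hsd]
  set v := c (J / 2) + ⟪y i, n (J / 2)⟫ with hv
  set w := (y i 0 + c (J / 2) * n (J / 2) 0) ^ 2 + (y i 1 + c (J / 2) * n (J / 2) 1) ^ 2 with hw
  have hw0 : 0 ≤ w := by positivity
  have hsm' : ε ^ 2 * w < 2 * ε * |v| := by
    have := mul_lt_mul_of_pos_left hsm hε0
    nlinarith
  have hnn : 0 ≤ ε ^ 2 * w := by positivity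
  by_cases hp : J % 2 = 0
  · simp only [hp, if_true, decide_true]
    cases hE : M[i][J / 2]
    · rw [hE, sgn_false] at hpos
      have hvneg : v < 0 := by linarith
      rw [abs_of_neg hvneg] at hsm'
      refine ⟨fun h => absurd h (by simp), fun _ => ?_⟩
      nlinarith
    · rw [hE, sgn_true, one_mul] at hpos
      rw [abs_of_pos hpos] at hsm'
      refine ⟨fun _ => ?_, fun h => absurd h (by simp)⟩
      nlinarith
  · simp only [hp, if_false, decide_false]
    cases hE : M[i][J / 2]
    · rw [hE, sgn_false] at hpos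
      have hvneg : v < 0 := by linarith
      rw [abs_of_neg hvneg] at hsm'
      refine ⟨fun _ => ?_, fun h => absurd h (by simp)⟩
      nlinarith
    · rw [hE, sgn_true, one_mul] at hpos
      rw [abs_of_pos hpos] at hsm'
      refine ⟨fun h => absurd h (by simp), fun _ => ?_⟩
      nlinarith

end Pool.Agent.Q230.LS
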