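import Pool.Agent.Q230.LS.Hard
import Pool.Agent.H670R2.ERMem
import Pool.Agent.ER.Dec

/-!
# Long/short edge realizability: polynomial time and membership
-/

set_option autoImplicit false

namespace Pool.Agent.NPC.Q230LS

open Pool.Agent.NPC Pool.Agent.NPC.ER Pool.Agent.NPC.ER.Pat Pool.Agent.Q230.LS
open Pool.Agent.NPC.H670R2 (conj holds_conj poly_conj poly_tvar poly_tadd poly_tmul poly_eq poly_lt
  poly_le poly_not poly_and poly_tneg ff not_etr_ff)

theorem longShort_iff (M : List (List Bool)) : LongShortBipartite M ↔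
    (∀ row ∈ M, row.length = Pool.Agent.Q230.LS.wid M) ∧
      RealN M.length (Pool.Agent.Q230.LS.wid M) M := by
  unfold LongShortBipartite
  rw [realizable_iff]

/-! ### Hardness -/

theorem isPatOf : IsPatOf Sgn.patOf where
  poly := Sgn.poly_patOf Poly.id
  wf := Sgn.patOf_wf
  sound := fun _ h => Sgn.patOf_sound h
  complete := fun _ h => Sgn.patOf_complete h

theorem poly_redL : Poly redL := by
  unfold redL
  refine Poly.map (F := fun (_ : List (List Bool)) (row : List Bool) =>
    (List.range (2 * row.length)).map fun J => (row.getD (J / 2) false == decide (J % 2 = 0)))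
    Poly.id ?_
  have h1 : UPoly (fun x : List (List Bool) × List Bool => 2 * x.2.length) :=
    UPoly.mul (UPoly.const 2) (UPoly.length (Poly.snd Poly.id))
  refine Poly.map (F := fun (x : List (List Bool) × List Bool) J =>
    (x.2.getD (J / 2) false == decide (J % 2 = 0))) h1.range ?_
  have h2 : Poly (fun x : (List (List Bool) × List Bool) × ℕ => x.1.2.getD (x.2 / 2) false) :=
    Poly.getD (Poly.snd (Poly.fst Poly.id)) (Poly.div (Poly.snd Poly.id) (Poly.const 2))
      (Poly.const false)
  have h3 : Poly (fun x : (List (List Bool) × List Bool) × ℕ => decide (x.2 % 2 = 0)) :=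
    Poly.decide_eq (Poly.mod (Poly.snd Poly.id) (Poly.const 2)) (Poly.const 0)
  refine (Poly.decide_eq h2 h3).congr fun x => ?_
  generalize x.1.2.getD (x.2 / 2) false = p
  generalize decide (x.2 % 2 = 0) = q
  cases p <;> cases q <;> rfl

theorem longShort_hard : ERHard (lang LongShortBipartite) := by
  refine ERHard.of_sys (f := fun S => redL (matOf Sgn.patOf 0 S))
    (poly_redL.comp (isPatOf.poly_matOf 0)) fun S => ?_
  obtain ⟨m, hm⟩ := rect_matOf Sgn.patOf 0 S
  rw [longShort_iff]
  constructor
  · intro hS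
    exact ⟨isBip_of_rect (rect_redL hm), realN_of_SRN hm (isPatOf.srn (k := 0) hS)⟩
  · rintro ⟨-, hS⟩
    exact isPatOf.sat (k := 0) (SR_of_realN hm hS)

/-! ### Membership -/

/-- coordinates -/
def ax (k : ℕ) : Tm := Tm.var (2 * k)

/-- coordinates -/
def bx (k : ℕ) : Tm := Tm.var (2 * k + 1)

/-- difference -/
def subT (s t : Tm) : Tm := Tm.add s (Tm.neg t)

theorem eval_subT (x : ℕ → ℝ) (s t : Tm) : (subT s t).eval x = s.eval x - t.eval x := by
  simp [subT, Tm.eval, sub_eq_add_neg]

/-- cross product -/
def crT (w u v : ℕ) : Tm :=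
  subT (Tm.mul (subT (ax u) (ax w)) (subT (bx v) (bx w)))
    (Tm.mul (subT (bx u) (bx w)) (subT (ax v) (ax w)))

/-- inner product -/
def dtT (w u v : ℕ) : Tm :=
  Tm.add (Tm.mul (subT (ax u) (ax w)) (subT (ax v) (ax w)))
    (Tm.mul (subT (bx u) (bx w)) (subT (bx v) (bx w)))

/-- squared distance -/
def sdT (u v : ℕ) : Tm :=
  Tm.add (Tm.mul (subT (ax u) (ax v)) (subT (ax u) (ax v)))
    (Tm.mul (subT (bx u) (bx v)) (subT (bx u) (bx v)))

/-- distinct vertices -/
def neF (k l : ℕ) : Fm := Fm.not (Fm.and (Fm.eq (ax k) (ax l)) (Fm.eq (bx k) (bx l)))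

/-- a vertex is not in the interior of an edge -/
def segF (w u v : ℕ) : Fm :=
  Fm.not (Fm.and (Fm.eq (crT w u v) Tm.zero) (Fm.lt (dtT w u v) Tm.zero))

/-- the length of an edge -/
def lenF (u v : ℕ) (e : Bool) : Fm :=
  if e = true then Fm.le (sdT u v) Tm.one else Fm.lt Tm.one (sdT u v)

theorem holds_neF (x : ℕ → ℝ) (k l : ℕ) : (neF k l).Holds x ↔
    ¬ (x (2 * k) = x (2 * l) ∧ x (2 * k + 1) = x (2 * l + 1)) := by
  simp [neF, Fm.Holds, ax, bx, Tm.eval]

theorem holds_segF (x : ℕ → ℝ) (w u v : ℕ) : (segF w u v).Holds x ↔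
    ¬ (cr (fun k => x (2 * k)) (fun k => x (2 * k + 1)) w u v = 0 ∧
      dt (fun k => x (2 * k)) (fun k => x (2 * k + 1)) w u v < 0) := by
  simp only [segF, Fm.Holds, crT, dtT, eval_subT, Tm.eval, ax, bx, cr, dt]

theorem holds_lenF (x : ℕ → ℝ) (u v : ℕ) (e : Bool) : (lenF u v e).Holds x ↔
    (sd (fun k => x (2 * k)) (fun k => x (2 * k + 1)) u v ≤ 1 ↔ e = true) := by
  have h : (sdT u v).eval x = sd (fun k => x (2 * k)) (fun k => x (2 * k + 1)) u v := by
    simp only [sdT, eval_subT, Tm.eval, ax, bx, sd]
    ring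
  cases e
  · simp only [lenF, Bool.false_eq_true, if_false, Fm.Holds, h, Tm.eval, iff_false, not_le]
  · simp only [lenF, if_true, Fm.Holds, h, Tm.eval, iff_true]

/-- the conditions -/
def cnds (M : List (List Bool)) : List Fm :=
  ((List.range (M.length + Pool.Agent.Q230.LS.wid M)).flatMap fun k =>
    ((List.range (M.length + Pool.Agent.Q230.LS.wid M)).filter fun l => !decide (k = l)).map
      fun l => neF k l) ++
  ((List.range M.length).flatMap fun i => (List.range (Pool.Agent.Q230.LS.wid M)).flatMap fun j =>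
    lenF i (M.length + j) (Pool.Agent.Q230.LS.ent M i j) ::
    ((List.range (M.length + Pool.Agent.Q230.LS.wid M)).filter fun w =>
      !decide (w = i) && !decide (w = M.length + j)).map fun w => segF w i (M.length + j))

theorem holds_cnds (x : ℕ → ℝ) (M : List (List Bool)) : (∀ φ ∈ cnds M, φ.Holds x) ↔
    (∀ k < M.length + Pool.Agent.Q230.LS.wid M, ∀ l < M.length + Pool.Agent.Q230.LS.wid M, k ≠ l →
      (neF k l).Holds x) ∧
    (∀ i < M.length, ∀ j < Pool.Agent.Q230.LS.wid M,
      (lenF i (M.length + j) (Pool.Agent.Q230.LS.ent M i j)).Holds x ∧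
      ∀ w < M.length + Pool.Agent.Q230.LS.wid M, w ≠ i → w ≠ M.length + j →
        (segF w i (M.length + j)).Holds x) := by
  unfold cnds
  simp only [List.forall_mem_append, List.forall_mem_flatMap, List.forall_mem_map,
    List.forall_mem_cons, List.mem_filter, List.mem_range, Bool.not_eq_true',
    decide_eq_false_iff_not, Bool.and_eq_true, and_imp]

/-- the test for being rectangular -/
def rectB (M : List (List Bool)) : Bool :=
  M.all fun row => decide (row.length = Pool.Agent.Q230.LS.wid M)

theorem rectB_iff (M : List (List Bool)) : rectB M = true ↔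
    ∀ row ∈ M, row.length = Pool.Agent.Q230.LS.wid M := by
  simp [rectB, List.all_eq_true]

/-- the formula -/
def lsF (M : List (List Bool)) : Fm := if rectB M = true then conj (cnds M) else ff

theorem lsF_correct (M : List (List Bool)) : LongShortBipartite M ↔ ETR (lsF M) := by
  rw [longShort_iff, ← rectB_iff]
  unfold lsF
  by_cases hM : rectB M = true
  · rw [if_pos hM]
    unfold ETR
    simp only [hM, true_and, holds_conj, holds_cnds, holds_neF, holds_segF, holds_lenF]
    constructor
    · rintro ⟨a, b, h1, h2, h3⟩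
      have ea : ∀ k, (fun n => if n % 2 = 0 then a (n / 2) else b (n / 2)) (2 * k) = a k := by
        intro k
        simp only
        rw [if_pos (by omega)]
        congr 1
        omega
      have eb : ∀ k, (fun n => if n % 2 = 0 then a (n / 2) else b (n / 2)) (2 * k + 1) = b k := by
        intro k
        simp only
        rw [if_neg (by omega)]
        congr 1
        omega
      refine ⟨fun n => if n % 2 = 0 then a (n / 2) else b (n / 2), ?_⟩
      simp only [ea, eb]
      exact ⟨h1, fun i hi j hj => ⟨h3 i hi j hj, fun w hw hwi hwj => h2 i hi j hj w hw hwi hwj⟩⟩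
    · rintro ⟨x, h1, h2⟩
      exact ⟨fun k => x (2 * k), fun k => x (2 * k + 1), h1, fun i hi j hj => (h2 i hi j hj).2,
        fun i hi j hj => (h2 i hi j hj).1⟩
  · rw [if_neg hM]
    exact ⟨fun h => absurd h.1 hM, fun h => absurd h not_etr_ff⟩

section

variable {α : Type} [TEnc α]

theorem poly_ax {k : α → ℕ} (hk : Poly k) : Poly (fun a => ax (k a)) :=
  poly_tvar (Poly.mul (Poly.const 2) hk)

theorem poly_bx {k : α → ℕ} (hk : Poly k) : Poly (fun a => bx (k a)) :=
  poly_tvar (Poly.add (Poly.mul (Poly.const 2) hk) (Poly.const 1))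

theorem poly_subT {s t : α → Tm} (hs : Poly s) (ht : Poly t) :
    Poly (fun a => subT (s a) (t a)) := poly_tadd hs (poly_tneg ht)

theorem poly_neF {k l : α → ℕ} (hk : Poly k) (hl : Poly l) : Poly (fun a => neF (k a) (l a)) :=
  poly_not (poly_and (poly_eq (poly_ax hk) (poly_ax hl)) (poly_eq (poly_bx hk) (poly_bx hl)))

theorem poly_segF {w u v : α → ℕ} (hw : Poly w) (hu : Poly u) (hv : Poly v) :
    Poly (fun a => segF (w a) (u a) (v a)) :=
  poly_not (poly_and (poly_eq (poly_subT (poly_tmul (poly_subT (poly_ax hu) (poly_ax hw))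
    (poly_subT (poly_bx hv) (poly_bx hw))) (poly_tmul (poly_subT (poly_bx hu) (poly_bx hw))
    (poly_subT (poly_ax hv) (poly_ax hw)))) (Poly.const _))
    (poly_lt (poly_tadd (poly_tmul (poly_subT (poly_ax hu) (poly_ax hw))
      (poly_subT (poly_ax hv) (poly_ax hw))) (poly_tmul (poly_subT (poly_bx hu) (poly_bx hw))
      (poly_subT (poly_bx hv) (poly_bx hw)))) (Poly.const _)))

theorem poly_sdT {u v : α → ℕ} (hu : Poly u) (hv : Poly v) : Poly (fun a => sdT (u a) (v a)) :=
  poly_tadd (poly_tmul (poly_subT (poly_ax hu) (poly_ax hv)) (poly_subT (poly_ax hu) (poly_ax hv)))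
    (poly_tmul (poly_subT (poly_bx hu) (poly_bx hv)) (poly_subT (poly_bx hu) (poly_bx hv)))

theorem poly_lenF {u v : α → ℕ} {e : α → Bool} (hu : Poly u) (hv : Poly v) (he : Poly e) :
    Poly (fun a => lenF (u a) (v a) (e a)) :=
  Poly.ite (Poly.decide_bool he) (poly_le (poly_sdT hu hv) (Poly.const _))
    (poly_lt (Poly.const _) (poly_sdT hu hv))

theorem poly_wid' {M : α → List (List Bool)} (hM : Poly M) :
    UPoly (fun a => Pool.Agent.Q230.LS.wid (M a)) := by
  have h0 : Poly (fun a => (M a).headD []) :=
    (Poly.optCases (Poly.head? hM) (Poly.const []) (h := fun _ b => b)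
      (Poly.snd Poly.id)).congr fun a => by cases M a <;> rfl
  exact UPoly.length h0

theorem poly_ent' {M : α → List (List Bool)} {i j : α → ℕ} (hM : Poly M) (hi : Poly i)
    (hj : Poly j) : Poly (fun a => Pool.Agent.Q230.LS.ent (M a) (i a) (j a)) :=
  Poly.getD (Poly.getD hM hi (Poly.const [])) hj (Poly.const false)

/-- the conditions for an edge -/
def edgeC (M : List (List Bool)) (i j : ℕ) : List Fm :=
  lenF i (M.length + j) (Pool.Agent.Q230.LS.ent M i j) ::
    ((List.range (M.length + Pool.Agent.Q230.LS.wid M)).filter fun w =>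
      !decide (w = i) && !decide (w = M.length + j)).map fun w => segF w i (M.length + j)

theorem poly_edgeC {M : α → List (List Bool)} {i j : α → ℕ} (hM : Poly M) (hi : Poly i)
    (hj : Poly j) : Poly (fun a => edgeC (M a) (i a) (j a)) := by
  have hn := UPoly.add (UPoly.length hM) (poly_wid' hM)
  have hmj : Poly (fun a => (M a).length + j a) := Poly.add (Poly.length hM) hj
  refine Poly.cons (poly_lenF hi hmj (poly_ent' hM hi hj)) ?_
  refine Poly.map (F := fun a w => segF w (i a) ((M a).length + j a))
    (Poly.filter (p := fun a w => !decide (w = i a) && !decide (w = (M a).length + j a))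
      hn.range ?_) ?_
  · exact Poly.and (Poly.not (Poly.decide_eq (Poly.snd Poly.id) (hi.comp (Poly.fst Poly.id))))
      (Poly.not (Poly.decide_eq (Poly.snd Poly.id) (hmj.comp (Poly.fst Poly.id))))
  · exact poly_segF (Poly.snd Poly.id) (hi.comp (Poly.fst Poly.id)) (hmj.comp (Poly.fst Poly.id))

end

theorem cnds_eq (M : List (List Bool)) : cnds M =
    ((List.range (M.length + Pool.Agent.Q230.LS.wid M)).flatMap fun k =>
      ((List.range (M.length + Pool.Agent.Q230.LS.wid M)).filter fun l => !decide (k = l)).map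
        fun l => neF k l) ++
    ((List.range M.length).flatMap fun i =>
      (List.range (Pool.Agent.Q230.LS.wid M)).flatMap fun j => edgeC M i j) := rfl

theorem poly_cnds : Poly cnds := by
  have hM : Poly (fun M : List (List Bool) => M) := Poly.id
  have hn := UPoly.add (UPoly.length hM) (poly_wid' hM)
  refine Poly.congr (f := fun M => _) ?_ fun M => (cnds_eq M).symm
  refine Poly.append ?_ ?_
  · refine Poly.flatMap (F := fun (M : List (List Bool)) k =>
      ((List.range (M.length + Pool.Agent.Q230.LS.wid M)).filter fun l => !decide (k = l)).map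
        fun l => neF k l) hn.range ?_
    refine Poly.map (F := fun (p : List (List Bool) × ℕ) l => neF p.2 l)
      (Poly.filter (p := fun (p : List (List Bool) × ℕ) l => !decide (p.2 = l))
        (hn.comp (Poly.fst Poly.id)).range ?_) ?_
    · exact Poly.not (Poly.decide_eq (Poly.snd (Poly.fst Poly.id)) (Poly.snd Poly.id))
    · exact poly_neF (Poly.snd (Poly.fst Poly.id)) (Poly.snd Poly.id)
  · refine Poly.flatMap (F := fun (M : List (List Bool)) i =>
      (List.range (Pool.Agent.Q230.LS.wid M)).flatMap fun j => edgeC M i j)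
      (UPoly.length hM).range ?_
    refine Poly.flatMap (F := fun (p : List (List Bool) × ℕ) j => edgeC p.1 p.2 j)
      ((poly_wid' hM).comp (Poly.fst Poly.id)).range ?_
    exact poly_edgeC (Poly.fst (Poly.fst Poly.id)) (Poly.snd (Poly.fst Poly.id)) (Poly.snd Poly.id)

theorem poly_rectB : Poly rectB := by
  have hM : Poly (fun M : List (List Bool) => M) := Poly.id
  refine Poly.all (p := fun (M : List (List Bool)) (row : List Bool) =>
    decide (row.length = Pool.Agent.Q230.LS.wid M)) hM ?_
  exact Poly.decide_eq (Poly.length (Poly.snd Poly.id))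
    ((poly_wid' hM).toPoly.comp (Poly.fst Poly.id))

theorem poly_lsF : Poly lsF :=
  Poly.ite (p := fun M => rectB M = true) (Poly.decide_bool poly_rectB) (poly_conj poly_cnds)
    (Poly.const _)

theorem longShort_mem : InER (lang LongShortBipartite) := ER.InER.of_poly poly_lsF lsF_correct

end Pool.Agent.NPC.Q230LS
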