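import Pool.Agent.Q230.LS.Defs

/-!
# Plane geometry for drawings, in coordinates
-/

set_option autoImplicit false

namespace Pool.Agent.Q230.LS

/-- The cross product of `u - w` and `v - w`. -/
def cr (a b : ℕ → ℝ) (w u v : ℕ) : ℝ := (a u - a w) * (b v - b w) - (b u - b w) * (a v - a w)

/-- The inner product of `u - w` and `v - w`. -/
def dt (a b : ℕ → ℝ) (w u v : ℕ) : ℝ := (a u - a w) * (a v - a w) + (b u - b w) * (b v - b w)

/-- The squared distance. -/
def sd (a b : ℕ → ℝ) (u v : ℕ) : ℝ := (a u - a v) ^ 2 + (b u - b v) ^ 2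

/-- The coordinate version. -/
def RealN (m n : ℕ) (M : List (List Bool)) : Prop := ∃ a b : ℕ → ℝ,
  (∀ k < m + n, ∀ l < m + n, k ≠ l → ¬ (a k = a l ∧ b k = b l)) ∧
  (∀ i < m, ∀ j < n, ∀ w < m + n, w ≠ i → w ≠ m + j →
    ¬ (cr a b w i (m + j) = 0 ∧ dt a b w i (m + j) < 0)) ∧
  (∀ i < m, ∀ j < n, (sd a b i (m + j) ≤ 1 ↔ ent M i j = true))

/-- The point with given coordinates. -/
noncomputable def pt (a b : ℕ → ℝ) (k : ℕ) : EuclideanSpace ℝ (Fin 2) := !₂[a k, b k]

@[simp] theorem pt_zero (a b : ℕ → ℝ) (k : ℕ) : pt a b k 0 = a k := rfl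

@[simp] theorem pt_one (a b : ℕ → ℝ) (k : ℕ) : pt a b k 1 = b k := rfl

theorem ext2 {x y : EuclideanSpace ℝ (Fin 2)} (h0 : x 0 = y 0) (h1 : x 1 = y 1) : x = y := by
  ext i
  fin_cases i
  · exact h0
  · exact h1

theorem pt_eq_iff (a b : ℕ → ℝ) (k l : ℕ) : pt a b k = pt a b l ↔ a k = a l ∧ b k = b l := by
  constructor
  · intro h
    exact ⟨congrArg (fun x => x 0) h, congrArg (fun x => x 1) h⟩
  · rintro ⟨h0, h1⟩
    exact ext2 h0 h1

theorem dist_pt (a b : ℕ → ℝ) (u v : ℕ) : dist (pt a b u) (pt a b v) = Real.sqrt (sd a b u v) := by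
  rw [EuclideanSpace.dist_eq, Fin.sum_univ_two]
  simp only [pt_zero, pt_one, Real.dist_eq, sq_abs]
  rfl

theorem dist_le_one_iff (a b : ℕ → ℝ) (u v : ℕ) :
    dist (pt a b u) (pt a b v) ≤ 1 ↔ sd a b u v ≤ 1 := by
  rw [dist_pt, Real.sqrt_le_one]

theorem mem_openSegment_pt {a b : ℕ → ℝ} {w u v : ℕ} (h1 : pt a b w ≠ pt a b u) :
    pt a b w ∈ openSegment ℝ (pt a b u) (pt a b v) ↔ cr a b w u v = 0 ∧ dt a b w u v < 0 := by
  constructor
  · rintro ⟨s, t, hs, ht, hst, h⟩
    have e0 : s * a u + t * a v = a w := by
      have := congrArg (fun x => x 0) h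
      simpa using this
    have e1 : s * b u + t * b v = b w := by
      have := congrArg (fun x => x 1) h
      simpa using this
    have hs' : s = 1 - t := by linarith
    subst hs'
    have f0 : a u - a w = t * (a u - a v) := by rw [← e0]; ring
    have f1 : b u - b w = t * (b u - b v) := by rw [← e1]; ring
    have g0 : a v - a w = -(1 - t) * (a u - a v) := by rw [← e0]; ring
    have g1 : b v - b w = -(1 - t) * (b u - b v) := by rw [← e1]; ring
    unfold cr dt
    rw [f0, f1, g0, g1]
    refine ⟨by ring, ?_⟩
    have hne : 0 < (a u - a v) ^ 2 + (b u - b v) ^ 2 := by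
      rcases eq_or_lt_of_le (by positivity : 0 ≤ (a u - a v) ^ 2 + (b u - b v) ^ 2) with h0 | h0
      · exfalso
        have z0 : a u - a v = 0 := by nlinarith [sq_nonneg (a u - a v), sq_nonneg (b u - b v)]
        have z1 : b u - b v = 0 := by nlinarith [sq_nonneg (a u - a v), sq_nonneg (b u - b v)]
        apply h1
        rw [pt_eq_iff]
        rw [z0, mul_zero] at f0
        rw [z1, mul_zero] at f1
        exact ⟨by linarith, by linarith⟩
      · exact h0
    have : t * (a u - a v) * (-(1 - t) * (a u - a v)) + t * (b u - b v) * (-(1 - t) * (b u - b v)) =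
        -((1 - t) * t * ((a u - a v) ^ 2 + (b u - b v) ^ 2)) := by ring
    rw [this]
    have := mul_pos (mul_pos hs ht) hne
    linarith
  · rintro ⟨hc, hd⟩
    unfold cr at hc
    unfold dt at hd
    set α0 := a u - a w with hα0
    set α1 := b u - b w with hα1
    set β0 := a v - a w with hβ0
    set β1 := b v - b w with hβ1
    have hN : 0 < α0 ^ 2 + α1 ^ 2 := by
      rcases eq_or_lt_of_le (by positivity : 0 ≤ α0 ^ 2 + α1 ^ 2) with h0 | h0
      · exfalso
        have z0 : α0 = 0 := by nlinarith [sq_nonneg α0, sq_nonneg α1]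
        have z1 : α1 = 0 := by nlinarith [sq_nonneg α0, sq_nonneg α1]
        rw [z0, z1] at hd
        simp at hd
      · exact h0
    set D := α0 * β0 + α1 * β1 with hD
    set N := α0 ^ 2 + α1 ^ 2 with hNdef
    have b0 : N * β0 = D * α0 := by rw [hNdef, hD]; linear_combination -α1 * hc
    have b1 : N * β1 = D * α1 := by rw [hNdef, hD]; linear_combination α0 * hc
    have hS : 0 < N - D := by linarith
    refine ⟨-D / (N - D), N / (N - D), div_pos (by linarith) hS, div_pos hN hS, by
      field_simp
      ring, ?_⟩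
    have au : a u = a w + α0 := by rw [hα0]; ring
    have av : a v = a w + β0 := by rw [hβ0]; ring
    have bu : b u = b w + α1 := by rw [hα1]; ring
    have bv : b v = b w + β1 := by rw [hβ1]; ring
    apply ext2
    · have : (-D / (N - D)) * a u + (N / (N - D)) * a v = a w := by
        rw [au, av]
        field_simp
        linear_combination b0
      simpa using this
    · have : (-D / (N - D)) * b u + (N / (N - D)) * b v = b w := by
        rw [bu, bv]
        field_simp
        linear_combination b1
      simpa using this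

/-- The realizability in coordinates. -/
theorem realizable_iff (M : List (List Bool)) :
    Realizable (completeBipartiteGraph (Fin M.length) (Fin (wid M))) (shortSet M) ↔
      RealN M.length (wid M) M := by
  set m := M.length with hm
  set n := wid M with hn
  let lab : Fin m ⊕ Fin n → ℕ := Sum.elim (fun i => i.1) (fun j => m + j.1)
  have hlab : ∀ v, lab v < m + n := by
    rintro (i | j)
    · exact Nat.lt_add_right _ i.2
    · exact Nat.add_lt_add_left j.2 _
  have hlabinj : Function.Injective lab := by
    rintro (i | i) (j | j) h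
    · exact congrArg _ (Fin.ext h)
    · exfalso
      have := i.2
      simp only [lab, Sum.elim_inl, Sum.elim_inr] at h
      omega
    · exfalso
      have := j.2
      simp only [lab, Sum.elim_inl, Sum.elim_inr] at h
      omega
    · simp only [lab, Sum.elim_inr] at h
      exact congrArg _ (Fin.ext (by omega))
  have hsurj : ∀ k < m + n, ∃ v, lab v = k := by
    intro k hk
    by_cases h : k < m
    · exact ⟨Sum.inl ⟨k, h⟩, rfl⟩
    · exact ⟨Sum.inr ⟨k - m, by omega⟩, by simp only [lab, Sum.elim_inr]; omega⟩
  have hshort : ∀ (i : Fin m) (j : Fin n), s((Sum.inl i : Fin m ⊕ Fin n), Sum.inr j) ∈ shortSet M ↔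
      ent M i.1 j.1 = true := by
    intro i j
    constructor
    · rintro ⟨i', j', h, h'⟩
      rw [Sym2.eq_iff] at h
      rcases h with ⟨h1, h2⟩ | ⟨h1, -⟩
      · rw [Sum.inl.inj h1, Sum.inr.inj h2]
        exact h'
      · exact absurd h1 (by simp)
    · intro h
      exact ⟨i, j, rfl, h⟩
  constructor
  · rintro ⟨p, ⟨hinj, hseg⟩, hd⟩
    obtain ⟨a, b, hab⟩ : ∃ a b : ℕ → ℝ, ∀ v, p v = pt a b (lab v) := by
      let c : Fin 2 → ℕ → ℝ := fun r k => if h : ∃ v, lab v = k then p h.choose r else 0
      have hc : ∀ r v, c r (lab v) = p v r := by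
        intro r v
        have h : ∃ v', lab v' = lab v := ⟨v, rfl⟩
        have h' : h.choose = v := hlabinj h.choose_spec
        simp only [c]
        rw [dif_pos h, h']
      exact ⟨c 0, c 1, fun v => ext2 (hc 0 v).symm (hc 1 v).symm⟩
    refine ⟨a, b, ?_, ?_, ?_⟩
    · intro k hk l hl hkl h
      obtain ⟨v, rfl⟩ := hsurj k hk
      obtain ⟨v', rfl⟩ := hsurj l hl
      rw [← pt_eq_iff, ← hab, ← hab] at h
      exact hkl (congrArg lab (hinj h))
    · intro i hi j hj w hw hwi hwj h
      obtain ⟨v, rfl⟩ := hsurj w hw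
      have hne : pt a b (lab v) ≠ pt a b i := by
        intro h'
        rw [← hab] at h'
        have : p v = p (Sum.inl ⟨i, hi⟩) := by rw [h', hab]; rfl
        exact hwi (by rw [hinj this]; rfl)
      have := (mem_openSegment_pt hne).2 h
      refine hseg (Sum.inl ⟨i, hi⟩) (Sum.inr ⟨j, hj⟩) v (by simp) ?_
      rw [hab, hab, hab]
      exact this
    · intro i hi j hj
      have := hd (Sum.inl ⟨i, hi⟩) (Sum.inr ⟨j, hj⟩) (by simp)
      rw [hab, hab, hshort] at this
      rw [← dist_le_one_iff]
      exact this
  · rintro ⟨a, b, h1, h2, h3⟩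
    have hinj : Function.Injective fun v => pt a b (lab v) := by
      intro v v' h
      by_contra hne
      exact h1 _ (hlab v) _ (hlab v') (fun h' => hne (hlabinj h')) ((pt_eq_iff _ _ _ _).1 h)
    have key : ∀ (i : Fin m) (j : Fin n) (w : Fin m ⊕ Fin n),
        pt a b (lab w) ∉ openSegment ℝ (pt a b (lab (Sum.inl i))) (pt a b (lab (Sum.inr j))) := by
      intro i j w hw
      by_cases hwi : w = Sum.inl i
      · subst hwi
        obtain ⟨s, t, hs, ht, hst, h⟩ := hw
        have : pt a b (lab (Sum.inl i)) = pt a b (lab (Sum.inr j)) := by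
          have hs' : s = 1 - t := by linarith
          subst hs'
          have h' : t • (pt a b (lab (Sum.inr j)) - pt a b (lab (Sum.inl i))) = 0 := by
            have e : (1 - t) • pt a b (lab (Sum.inl i)) + t • pt a b (lab (Sum.inr j)) =
                pt a b (lab (Sum.inl i)) +
                  t • (pt a b (lab (Sum.inr j)) - pt a b (lab (Sum.inl i))) := by
              rw [smul_sub, sub_smul, one_smul]
              abel
            rw [e] at h
            simpa using h
          rcases smul_eq_zero.1 h' with h0 | h0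
          · exact absurd h0 ht.ne'
          · exact (sub_eq_zero.1 h0).symm
        exact absurd (hinj this) (by simp)
      by_cases hwj : w = Sum.inr j
      · subst hwj
        obtain ⟨s, t, hs, ht, hst, h⟩ := hw
        have : pt a b (lab (Sum.inl i)) = pt a b (lab (Sum.inr j)) := by
          have hs' : t = 1 - s := by linarith
          subst hs'
          have h' : s • (pt a b (lab (Sum.inl i)) - pt a b (lab (Sum.inr j))) = 0 := by
            have e : s • pt a b (lab (Sum.inl i)) + (1 - s) • pt a b (lab (Sum.inr j)) =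
                pt a b (lab (Sum.inr j)) +
                  s • (pt a b (lab (Sum.inl i)) - pt a b (lab (Sum.inr j))) := by
              rw [smul_sub, sub_smul, one_smul]
              abel
            rw [e] at h
            simpa using h
          rcases smul_eq_zero.1 h' with h0 | h0
          · exact absurd h0 hs.ne'
          · exact sub_eq_zero.1 h0
        exact absurd (hinj this) (by simp)
      have hne : pt a b (lab w) ≠ pt a b (lab (Sum.inl i)) := fun h => hwi (hinj h)
      have := (mem_openSegment_pt hne).1 hw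
      refine h2 i.1 i.2 j.1 j.2 (lab w) (hlab w) (fun h => hwi (hlabinj h))
        (fun h => hwj (hlabinj h)) this
    refine ⟨fun v => pt a b (lab v), ⟨hinj, ?_⟩, ?_⟩
    · rintro (i | i) (j | j) w h
      · simp at h
      · exact key i j w
      · rw [openSegment_symm]
        exact key j i w
      · simp at h
    · rintro (i | i) (j | j) h
      · simp at h
      · rw [hshort, dist_le_one_iff]
        exact h3 i.1 i.2 j.1 j.2
      · rw [Sym2.eq_swap, hshort, dist_comm, dist_le_one_iff]
        exact h3 j.1 j.2 i.1 i.2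
      · simp at h

end Pool.Agent.Q230.LS
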